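import Mathlib

/-!
Union-closed families in dual form: `T` is a finite family of finite sets, `fam T` the family of
all unions of members of `T`.  Structure lemmas.
-/

namespace Pool.Agent.Q134.UC

open Finset

variable {α : Type*} [DecidableEq α]

/-- `U` is a union of members of `T`. -/
def Cl (T : Finset (Finset α)) (U : Finset α) : Prop := ∀ x ∈ U, ∃ t ∈ T, x ∈ t ∧ t ⊆ U

instance (T : Finset (Finset α)) : DecidablePred (Cl T) := fun U => by
  unfold Cl; infer_instance

def supp (T : Finset (Finset α)) : Finset α := T.biUnion id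

def fam (T : Finset (Finset α)) : Finset (Finset α) := (supp T).powerset.filter (Cl T)

variable {T : Finset (Finset α)} {U V W B t : Finset α} {a b x y z : α}

lemma mem_supp : x ∈ supp T ↔ ∃ t ∈ T, x ∈ t := by simp [supp]

lemma mem_fam : U ∈ fam T ↔ Cl T U := by
  simp only [fam, mem_filter, mem_powerset, and_iff_right_iff_imp]
  intro h x hx
  obtain ⟨t, ht, hxt, -⟩ := h x hx
  exact mem_supp.2 ⟨t, ht, hxt⟩

lemma subset_supp (h : U ∈ fam T) : U ⊆ supp T := by
  have := (mem_filter.1 h).1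
  exact mem_powerset.1 this

lemma empty_mem : (∅ : Finset α) ∈ fam T := mem_fam.2 (by intro x hx; simp at hx)

lemma union_mem (hU : U ∈ fam T) (hV : V ∈ fam T) : U ∪ V ∈ fam T := by
  rw [mem_fam] at *
  intro x hx
  rcases mem_union.1 hx with hx | hx
  · obtain ⟨t, ht, hxt, hs⟩ := hU x hx
    exact ⟨t, ht, hxt, hs.trans subset_union_left⟩
  · obtain ⟨t, ht, hxt, hs⟩ := hV x hx
    exact ⟨t, ht, hxt, hs.trans subset_union_right⟩

lemma mem_mem (ht : t ∈ T) : t ∈ fam T := mem_fam.2 fun _ hx => ⟨t, ht, hx, Subset.rfl⟩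

lemma biUnion_mem {ι : Type*} (S : Finset ι) (f : ι → Finset α) (h : ∀ i ∈ S, f i ∈ fam T) :
    S.biUnion f ∈ fam T := by
  rw [mem_fam]
  intro x hx
  obtain ⟨i, hi, hxi⟩ := mem_biUnion.1 hx
  obtain ⟨t, ht, hxt, hs⟩ := mem_fam.1 (h i hi) x hxi
  exact ⟨t, ht, hxt, hs.trans (subset_biUnion_of_mem f hi)⟩

/-- the largest union of members of `T` inside `B` -/
def inn (T : Finset (Finset α)) (B : Finset α) : Finset α := (T.filter (· ⊆ B)).biUnion id

lemma mem_inn : x ∈ inn T B ↔ ∃ t ∈ T, t ⊆ B ∧ x ∈ t := by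
  simp [inn, and_assoc]

lemma inn_subset : inn T B ⊆ B := by
  intro x hx
  obtain ⟨t, _, hs, hx⟩ := mem_inn.1 hx
  exact hs hx

lemma inn_mem : inn T B ∈ fam T :=
  biUnion_mem _ _ fun _ hi => mem_mem (mem_filter.1 hi).1

/-- the union of all members of `T` containing `a` -/
def star (T : Finset (Finset α)) (a : α) : Finset α := (T.filter (a ∈ ·)).biUnion id

lemma mem_star : x ∈ star T a ↔ ∃ t ∈ T, a ∈ t ∧ x ∈ t := by
  simp [star, and_assoc]

/-- the points of `W` in some but not all members of `T` containing `a` -/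
def VV (T : Finset (Finset α)) (W : Finset α) (a : α) : Finset α :=
  W.filter fun z => (∃ t ∈ T, a ∈ t ∧ z ∈ t) ∧ ∃ t ∈ T, a ∈ t ∧ z ∉ t

lemma mem_VV : z ∈ VV T W a ↔ z ∈ W ∧ (∃ t ∈ T, a ∈ t ∧ z ∈ t) ∧ ∃ t ∈ T, a ∈ t ∧ z ∉ t := by
  simp [VV]

/-- `z` is covered in `U` only by members of `T` containing `a` -/
def Cov (T : Finset (Finset α)) (a z : α) (U : Finset α) : Prop :=
  z ∈ U ∧ ∀ t ∈ T, z ∈ t → t ⊆ U → a ∈ t

instance (T : Finset (Finset α)) (a z : α) : DecidablePred (Cov T a z) := fun U => by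
  unfold Cov; infer_instance

def Ess (T : Finset (Finset α)) (W : Finset α) (a : α) : Finset (Finset α) :=
  (fam T).filter fun U => ∃ z ∈ VV T W a, Cov T a z U

lemma mem_Ess : U ∈ Ess T W a ↔ U ∈ fam T ∧ ∃ z ∈ VV T W a, Cov T a z U := by simp [Ess]

lemma cov_mem (hU : U ∈ fam T) (h : Cov T a z U) : a ∈ U := by
  obtain ⟨t, ht, hz, hs⟩ := mem_fam.1 hU z h.1
  exact hs (h.2 t ht hz hs)

lemma eq_of (hW : ∀ t ∈ T, (t \ W).card ≤ 1) (ht : t ∈ T) (ha : a ∈ t) (hb : b ∈ t)
    (haW : a ∉ W) (hbW : b ∉ W) : a = b :=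
  Finset.card_le_one.1 (hW t ht) a (mem_sdiff.2 ⟨ha, haW⟩) b (mem_sdiff.2 ⟨hb, hbW⟩)

lemma cov_unique (hW : ∀ t ∈ T, (t \ W).card ≤ 1) (hU : U ∈ fam T) (h : Cov T a z U)
    (h' : Cov T b z U) (haW : a ∉ W) (hbW : b ∉ W) : a = b := by
  obtain ⟨t, ht, hz, hs⟩ := mem_fam.1 hU z h.1
  exact eq_of hW ht (h.2 t ht hz hs) (h'.2 t ht hz hs) haW hbW

/-- Key inequality: if `t` contains `a` and lies in at least half of the unions then few unions
contain `a` but not `t`. -/
theorem key (hW : ∀ t ∈ T, (t \ W).card ≤ 1) (haW : a ∉ W) (hat : a ∈ t)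
    (hH : (fam T).card ≤ 2 * ((fam T).filter (t ⊆ ·)).card) :
    2 * ((fam T).filter fun U => a ∈ U ∧ ¬ t ⊆ U).card ≤ (Ess T W a).card := by
  classical
  set A1 := (fam T).filter (a ∈ ·) with hA1
  set A0 := (fam T).filter (a ∉ ·) with hA0
  have h1 : A1.card + A0.card = (fam T).card := card_filter_add_card_filter_not _
  have h2 : ((fam T).filter (t ⊆ ·)).card + ((fam T).filter fun U => a ∈ U ∧ ¬ t ⊆ U).card
      = A1.card := by
    rw [← card_filter_add_card_filter_not (s := A1) (t ⊆ ·)]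
    congr 2
    · ext U
      simp only [hA1, mem_filter]
      constructor
      · rintro ⟨h, h'⟩; exact ⟨⟨h, h' hat⟩, h'⟩
      · rintro ⟨⟨h, _⟩, h'⟩; exact ⟨h, h'⟩
    · ext U
      simp only [hA1, mem_filter, and_assoc]
  have h3 : A1.card ≤ A0.card + (Ess T W a).card := by
    have hsub : A1 ⊆ (A1.filter (· ∉ Ess T W a)) ∪ Ess T W a := by
      intro U hU
      by_cases h : U ∈ Ess T W a
      · exact mem_union_right _ h
      · exact mem_union_left _ (mem_filter.2 ⟨hU, h⟩)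
    refine (card_le_card hsub).trans ((card_union_le _ _).trans ?_)
    refine Nat.add_le_add_right ?_ _
    set I : Finset α := (supp T).filter fun x => ∀ t ∈ T, a ∈ t → x ∈ t with hI
    have hrec : ∀ U ∈ A1.filter (· ∉ Ess T W a), U = inn T (U.erase a) ∪ I := by
      intro U hU
      obtain ⟨hU1, hUE⟩ := mem_filter.1 hU
      obtain ⟨hUf, haU⟩ := mem_filter.1 hU1
      apply Finset.Subset.antisymm
      · intro x hx
        by_cases hxi : x ∈ inn T (U.erase a)
        · exact mem_union_left _ hxi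
        refine mem_union_right _ ?_
        rw [hI, mem_filter]
        refine ⟨subset_supp hUf hx, ?_⟩
        by_contra hcon
        push Not at hcon
        obtain ⟨t1, ht1, hat1, hxt1⟩ := hcon
        have hcov : Cov T a x U := by
          refine ⟨hx, fun s hs hxs hsU => ?_⟩
          by_contra has
          exact hxi (mem_inn.2 ⟨s, hs, fun y hy => mem_erase.2 ⟨fun h => has (h ▸ hy), hsU hy⟩, hxs⟩)
        obtain ⟨t0, ht0, hxt0, ht0U⟩ := mem_fam.1 hUf x hx
        have hat0 := hcov.2 t0 ht0 hxt0 ht0U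
        have hxa : x ≠ a := fun h => hxt1 (h ▸ hat1)
        have hxW : x ∈ W := by
          by_contra hxW
          exact hxa (eq_of hW ht0 hxt0 hat0 hxW haW)
        exact hUE (mem_Ess.2 ⟨hUf, x, mem_VV.2 ⟨hxW, ⟨t0, ht0, hat0, hxt0⟩, ⟨t1, ht1, hat1, hxt1⟩⟩,
          hcov⟩)
      · apply union_subset
        · exact inn_subset.trans (erase_subset _ _)
        · intro x hx
          obtain ⟨t0, ht0, hat0, ht0U⟩ := mem_fam.1 hUf a haU
          exact ht0U ((mem_filter.1 hx).2 t0 ht0 hat0)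
    refine card_le_card_of_injOn (fun U : Finset α => inn T (U.erase a)) ?_ ?_
    · intro U hU
      simp only [hA0, coe_filter, Set.mem_ofPred_eq]
      exact ⟨inn_mem, fun h => (mem_erase.1 (inn_subset h)).1 rfl⟩
    · intro U hU U' hU' h
      have h : inn T (U.erase a) = inn T (U'.erase a) := h
      rw [hrec U hU, hrec U' hU', h]
  omega

end Pool.Agent.Q134.UC
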