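import Pool.Agent.Q134.UC.Basic

namespace Pool.Agent.Q134.UC

open Finset

variable {α : Type*} [DecidableEq α]
variable {T : Finset (Finset α)} {U V W B t : Finset α} {a b x y z : α}

/-- tangent line form of Jensen -/
lemma card_le_sum_exp {ι : Type*} (M : Finset ι) (c : ι → ℝ) (h : 0 ≤ ∑ i ∈ M, c i) :
    (M.card : ℝ) ≤ ∑ i ∈ M, Real.exp (c i) := by
  have : ∑ i ∈ M, (c i + 1) ≤ ∑ i ∈ M, Real.exp (c i) :=
    sum_le_sum fun i _ => Real.add_one_le_exp _
  rw [sum_add_distrib] at this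
  simp only [sum_const, nsmul_eq_mul, mul_one] at this
  linarith

/-- sum over a power set of `3^(-|U ∩ B|)` -/
lemma sum_powerset_weight (X B : Finset α) (hB : B ⊆ X) :
    ∑ U ∈ X.powerset, (1/3 : ℝ) ^ (U ∩ B).card = 2 ^ (X.card - B.card) * (4/3 : ℝ) ^ B.card := by
  have h := Finset.prod_one_add (f := fun i : α => if i ∈ B then (1/3 : ℝ) else 1) X
  have h1 : ∀ U ∈ X.powerset, ∏ i ∈ U, (if i ∈ B then (1/3 : ℝ) else 1) = (1/3 : ℝ) ^ (U ∩ B).card := by
    intro U _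
    rw [Finset.prod_ite]
    simp only [prod_const, one_pow, mul_one]
    congr 2
  rw [sum_congr rfl h1] at h
  rw [← h]
  have h2 : ∀ i ∈ X, (1 + if i ∈ B then (1/3 : ℝ) else 1) = if i ∈ B then (4/3 : ℝ) else 2 := by
    intro i _
    split_ifs <;> norm_num
  rw [prod_congr rfl h2, Finset.prod_ite]
  simp only [prod_const]
  have e1 : (X.filter (· ∈ B)) = B := by
    ext i; simp only [mem_filter]; exact ⟨fun h => h.2, fun h => ⟨hB h, h⟩⟩
  have e2 : (X.filter (· ∉ B)).card = X.card - B.card := by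
    have := card_filter_add_card_filter_not (s := X) (· ∈ B)
    rw [e1] at this
    omega
  rw [e1, e2]; ring

def MM (T : Finset (Finset α)) (z : α) : Finset (Finset α) := (fam T).filter (z ∉ ·)

lemma mem_MM : U ∈ MM T z ↔ U ∈ fam T ∧ z ∉ U := by simp [MM]

def OO (T : Finset (Finset α)) (W : Finset α) (z : α) : Finset α :=
  (supp T).filter fun a => a ∉ W ∧ ∃ t ∈ T, a ∈ t ∧ z ∉ t

def BB (T : Finset (Finset α)) (W : Finset α) (z : α) : Finset α :=
  (OO T W z).filter fun a => 4 * ((MM T z).filter (a ∈ ·)).card < (MM T z).card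

lemma two_pow_le (hW : ∀ t ∈ T, (t \ W).card ≤ 1) :
    2 ^ (OO T W z).card ≤ (MM T z).card := by
  classical
  have hch : ∀ a : α, ∃ t : Finset α, a ∈ OO T W z → t ∈ T ∧ a ∈ t ∧ z ∉ t := by
    intro a
    by_cases h : a ∈ OO T W z
    · obtain ⟨t, ht, h1, h2⟩ := (mem_filter.1 h).2.2
      exact ⟨t, fun _ => ⟨ht, h1, h2⟩⟩
    · exact ⟨∅, fun h' => absurd h' h⟩
  choose f hf using hch
  rw [← card_powerset]
  refine card_le_card_of_injOn (fun B : Finset α => B.biUnion f) ?_ ?_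
  · intro B hB
    have hB := mem_powerset.1 (mem_coe.1 hB)
    refine mem_coe.2 (mem_MM.2 ⟨biUnion_mem _ _ fun i hi => mem_mem (hf i (hB hi)).1, ?_⟩)
    intro hz
    obtain ⟨i, hi, hzi⟩ := mem_biUnion.1 hz
    exact (hf i (hB hi)).2.2 hzi
  · have hrec : ∀ B ∈ (OO T W z).powerset, (B.biUnion f) \ W = B := by
      intro B hB
      have hB := mem_powerset.1 hB
      ext x
      rw [mem_sdiff, mem_biUnion]
      constructor
      · rintro ⟨⟨i, hi, hx⟩, hxW⟩
        have := eq_of hW (hf i (hB hi)).1 hx (hf i (hB hi)).2.1 hxW (mem_filter.1 (hB hi)).2.1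
        rwa [this]
      · intro hx
        exact ⟨⟨x, hx, (hf x (hB hx)).2.1⟩, (mem_filter.1 (hB hx)).2.1⟩
    intro B hB B' hB' h
    rw [← hrec B (mem_coe.1 hB), ← hrec B' (mem_coe.1 hB')]
    exact congrArg (· \ W) h

lemma card_BB (hW : ∀ t ∈ T, (t \ W).card ≤ 1) : (BB T W z).card ≤ 6 * W.card := by
  classical
  set n := (BB T W z).card with hn
  set M := MM T z with hM
  set X := W ∪ OO T W z with hX
  have hMX : M ⊆ X.powerset := by
    intro U hU
    obtain ⟨hUf, hzU⟩ := mem_MM.1 hU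
    rw [mem_powerset]
    intro x hx
    by_cases hxW : x ∈ W
    · exact mem_union_left _ hxW
    refine mem_union_right _ (mem_filter.2 ⟨subset_supp hUf hx, hxW, ?_⟩)
    obtain ⟨t, ht, hxt, hs⟩ := mem_fam.1 hUf x hx
    exact ⟨t, ht, hxt, fun h => hzU (hs h)⟩
  have hcard : X.card = W.card + (OO T W z).card := by
    rw [hX, card_union_of_disjoint]
    rw [Finset.disjoint_left]
    intro x hx hx'
    exact (mem_filter.1 hx').2.1 hx
  have hBX : BB T W z ⊆ OO T W z := filter_subset _ _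
  have hsum : ∑ U ∈ M, ((U ∩ BB T W z).card : ℝ) ≤ (n : ℝ) / 4 * M.card := by
    have e : ∑ U ∈ M, ((U ∩ BB T W z).card : ℝ) = ∑ a ∈ BB T W z, ((M.filter (a ∈ ·)).card : ℝ) := by
      have e1 : ∀ U ∈ M, ((U ∩ BB T W z).card : ℝ) = ∑ a ∈ BB T W z, (if a ∈ U then (1:ℝ) else 0) := by
        intro U _
        rw [← Finset.sum_filter, sum_const, nsmul_eq_mul, mul_one]
        congr 2
        ext x; simp [and_comm]
      rw [sum_congr rfl e1, sum_comm]
      refine sum_congr rfl fun a _ => ?_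
      rw [← Finset.sum_filter, sum_const, nsmul_eq_mul, mul_one]
    rw [e]
    have : ∀ a ∈ BB T W z, ((M.filter (a ∈ ·)).card : ℝ) ≤ (M.card : ℝ) / 4 := by
      intro a ha
      have h := (mem_filter.1 ha).2
      have h' : (4 * ((M.filter (a ∈ ·)).card) : ℝ) < M.card := by exact_mod_cast h
      linarith
    refine (sum_le_sum this).trans ?_
    rw [sum_const, nsmul_eq_mul]
    linarith
  have hlog : 0 < Real.log 3 := Real.log_pos (by norm_num)
  have hexp : (M.card : ℝ) ≤ ∑ U ∈ M, Real.exp (((n : ℝ) / 4 - (U ∩ BB T W z).card) * Real.log 3) := by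
    apply card_le_sum_exp
    rw [← sum_mul]
    apply mul_nonneg _ hlog.le
    rw [sum_sub_distrib, sum_const, nsmul_eq_mul]
    linarith
  have hterm : ∀ U ∈ M, Real.exp (((n : ℝ) / 4 - (U ∩ BB T W z).card) * Real.log 3)
      = Real.exp ((n : ℝ) / 4 * Real.log 3) * (1/3 : ℝ) ^ (U ∩ BB T W z).card := by
    intro U _
    have e3 : Real.exp (((U ∩ BB T W z).card : ℝ) * Real.log 3) = 3 ^ (U ∩ BB T W z).card := by
      rw [mul_comm, Real.exp_mul, Real.exp_log (by norm_num), Real.rpow_natCast]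
    rw [sub_mul, Real.exp_sub, e3, one_div, inv_pow, div_eq_mul_inv]
  rw [sum_congr rfl hterm, ← mul_sum] at hexp
  have hle : ∑ U ∈ M, (1/3 : ℝ) ^ (U ∩ BB T W z).card ≤
      2 ^ (X.card - n) * (4/3 : ℝ) ^ n := by
    rw [hn, ← sum_powerset_weight X (BB T W z) (hBX.trans subset_union_right)]
    exact sum_le_sum_of_subset_of_nonneg hMX fun _ _ _ => by positivity
  have h2 : (2:ℝ) ^ (OO T W z).card ≤ M.card := by exact_mod_cast two_pow_le hW
  have hnO : n ≤ (OO T W z).card := card_le_card hBX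
  have hE : 0 < Real.exp ((n : ℝ) / 4 * Real.log 3) := Real.exp_pos _
  have h3 : (2:ℝ) ^ (OO T W z).card ≤
      Real.exp ((n : ℝ) / 4 * Real.log 3) * (2 ^ (X.card - n) * (4/3 : ℝ) ^ n) :=
    h2.trans (hexp.trans (mul_le_mul_of_nonneg_left hle hE.le))
  have h4 : (Real.exp ((n : ℝ) / 4 * Real.log 3)) ^ 4 = 3 ^ n := by
    rw [← Real.exp_nat_mul]
    have : ((4:ℕ):ℝ) * ((n : ℝ) / 4 * Real.log 3) = Real.log 3 * n := by push_cast; ring
    rw [this, Real.exp_mul, Real.exp_log (by norm_num), Real.rpow_natCast]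
  -- divide by 2^|OO|
  have h5 : (1:ℝ) ≤ Real.exp ((n : ℝ) / 4 * Real.log 3) * (2 ^ W.card * (2/3 : ℝ) ^ n) := by
    have hXn : X.card - n + n = W.card + (OO T W z).card := by omega
    have h6 : (2:ℝ) ^ (X.card - n) * (4/3 : ℝ) ^ n = 2 ^ (OO T W z).card * (2 ^ W.card * (2/3 : ℝ) ^ n) := by
      have : (4/3 : ℝ) ^ n = 2 ^ n * (2/3) ^ n := by rw [← mul_pow]; norm_num
      rw [this, ← mul_assoc, ← pow_add, hXn, pow_add]; ring
    rw [h6] at h3
    have hpos : (0:ℝ) < 2 ^ (OO T W z).card := by positivity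
    have : (2:ℝ) ^ (OO T W z).card * 1 ≤ 2 ^ (OO T W z).card *
        (Real.exp ((n : ℝ) / 4 * Real.log 3) * (2 ^ W.card * (2/3 : ℝ) ^ n)) := by
      calc _ = (2:ℝ) ^ (OO T W z).card := mul_one _
        _ ≤ _ := h3
        _ = _ := by ring
    exact le_of_mul_le_mul_left this hpos
  have h7 : (27/16 : ℝ) ^ n ≤ 16 ^ W.card := by
    have h8 : (1:ℝ) ≤ (Real.exp ((n : ℝ) / 4 * Real.log 3) * (2 ^ W.card * (2/3 : ℝ) ^ n)) ^ 4 :=
      one_le_pow₀ h5
    rw [mul_pow, h4, mul_pow, ← pow_mul, ← pow_mul, mul_comm W.card 4, mul_comm n 4, pow_mul, pow_mul] at h8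
    have h9 : (3:ℝ) ^ n * ((2 ^ 4) ^ W.card * ((2/3 : ℝ) ^ 4) ^ n) = (16/27 : ℝ) ^ n * 16 ^ W.card := by
      have : (3:ℝ) ^ n * ((2/3 : ℝ) ^ 4) ^ n = (16/27 : ℝ) ^ n := by
        rw [← mul_pow]; norm_num
      calc (3:ℝ) ^ n * ((2 ^ 4) ^ W.card * ((2/3 : ℝ) ^ 4) ^ n)
          = (3:ℝ) ^ n * ((2/3 : ℝ) ^ 4) ^ n * (2 ^ 4) ^ W.card := by ring
        _ = _ := by rw [this]; norm_num
    rw [h9] at h8
    have h10 : (27/16 : ℝ) ^ n * (16/27 : ℝ) ^ n = 1 := by rw [← mul_pow]; norm_num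
    have hp : (0:ℝ) < (27/16 : ℝ) ^ n := by positivity
    calc (27/16 : ℝ) ^ n = (27/16 : ℝ) ^ n * 1 := (mul_one _).symm
      _ ≤ (27/16 : ℝ) ^ n * ((16/27 : ℝ) ^ n * 16 ^ W.card) := mul_le_mul_of_nonneg_left h8 hp.le
      _ = 16 ^ W.card := by rw [← mul_assoc, h10, one_mul]
  by_contra hcon
  push Not at hcon
  have h11 : (27/16 : ℝ) ^ (6 * W.card) < (27/16 : ℝ) ^ n := pow_lt_pow_right₀ (by norm_num) hcon
  have h12 : (16:ℝ) ^ W.card ≤ (27/16 : ℝ) ^ (6 * W.card) := by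
    rw [pow_mul]
    exact pow_le_pow_left₀ (by norm_num) (by norm_num) _
  linarith

/-- a union lies in at most `|W|` of the sets `Ess a` -/
lemma card_ess_le (hW : ∀ t ∈ T, (t \ W).card ≤ 1) (O : Finset α) (hO : ∀ a ∈ O, a ∉ W)
    (hU : U ∈ fam T) : (O.filter fun a => U ∈ Ess T W a).card ≤ W.card := by
  classical
  have hch : ∀ a : α, ∃ z : α, U ∈ Ess T W a → z ∈ W ∧ Cov T a z U := by
    intro a
    by_cases h : U ∈ Ess T W a
    · obtain ⟨_, z, hz, hc⟩ := mem_Ess.1 h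
      exact ⟨z, fun _ => ⟨(mem_VV.1 hz).1, hc⟩⟩
    · exact ⟨a, fun h' => absurd h' h⟩
  choose f hf using hch
  refine card_le_card_of_injOn f ?_ ?_
  · intro a ha
    exact mem_coe.2 (hf a (mem_filter.1 (mem_coe.1 ha)).2).1
  · intro a ha b hb hab
    obtain ⟨ha1, ha2⟩ := mem_filter.1 (mem_coe.1 ha)
    obtain ⟨hb1, hb2⟩ := mem_filter.1 (mem_coe.1 hb)
    have h2 := (hf b hb2).2
    rw [← hab] at h2
    exact cov_unique hW hU (hf a ha2).2 h2 (hO a ha1) (hO b hb1)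

end Pool.Agent.Q134.UC
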