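import Pool.Agent.Q134.UC.Trans

namespace Pool.Agent.Q134.UC

open Finset

variable {ι : Type*} [DecidableEq ι] {A G : Finset (Finset ι)}

/-- all elements of a generator outside `multi` lie in the same generators -/
lemma tx_eq_of_not_multi (h : Gen A G) {g : Finset ι} (hg : g ∈ G) (hm : g ∉ multi (TT A G))
    {x y : ι} (hx : x ∈ g) (hy : y ∈ g) : tx G x = tx G y := by
  by_contra hne
  apply hm
  have hmem : ∀ z ∈ g, tx G z ∈ (TT A G).filter (g ∈ ·) := fun z hz =>
    mem_filter.2 ⟨mem_image.2 ⟨z, mem_biUnion.2 ⟨g, h.sub hg, hz⟩, rfl⟩, mem_tx.2 ⟨hg, hz⟩⟩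
  refine mem_filter.2 ⟨?_, ?_⟩
  · rw [supp_TT h]
    exact mem_erase.2 ⟨ne_empty_of_mem hx, hg⟩
  · exact Finset.one_lt_card.2 ⟨_, hmem x hx, _, hmem y hy, hne⟩

lemma mem_iff_of_tx (h : Gen A G) {X : Finset ι} (hX : X ∈ A) {x y : ι} (hxy : tx G x = tx G y)
    (hx : x ∈ X) : y ∈ X := by
  obtain ⟨g, hg, hxg, hgX⟩ := h.gen X hX x hx
  have : g ∈ tx G y := hxy ▸ mem_tx.2 ⟨hg, hxg⟩
  exact hgX (mem_tx.1 this).2

/-- the elements of a generator outside `multi` are in at least half of the members -/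
lemma half_of_not_multi (h : Gen A G) {g : Finset ι} (hg : g ∈ G) (hm : g ∉ multi (TT A G))
    {x : ι} (hx : x ∈ g) : A.card ≤ 2 * (A.filter (x ∈ ·)).card := by
  have h1 := card_filter_add_card_filter_not (s := A) (x ∈ ·)
  have h2 : (A.filter (x ∉ ·)).card ≤ (A.filter (x ∈ ·)).card := by
    refine card_le_card_of_injOn (fun X : Finset ι => X ∪ g) ?_ ?_
    · intro X hX
      obtain ⟨hXA, _⟩ := mem_filter.1 (mem_coe.1 hX)
      exact mem_coe.2 (mem_filter.2 ⟨h.union _ hXA _ (h.sub hg), mem_union_right _ hx⟩)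
    · have hd : ∀ X ∈ A.filter (x ∉ ·), (X ∪ g) \ g = X := by
        intro X hX
        obtain ⟨hXA, hxX⟩ := mem_filter.1 hX
        ext y
        rw [mem_sdiff, mem_union]
        constructor
        · rintro ⟨h1 | h1, h2⟩
          · exact h1
          · exact absurd h1 h2
        · intro hy
          refine ⟨Or.inl hy, fun hyg => hxX ?_⟩
          exact mem_iff_of_tx h hXA (tx_eq_of_not_multi h hg hm hyg hx) hy
      intro X hX Y hY hXY
      have hXY : X ∪ g = Y ∪ g := hXY
      rw [← hd X (mem_coe.1 hX), ← hd Y (mem_coe.1 hY), hXY]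
  omega

/-- Frankl's conjecture for families with at least `2^(J - √J/42)` members. -/
theorem frankl (h : Gen A G) (h0 : ∅ ∉ G) (hJ : G.Nonempty)
    (hk : (2:ℝ) ^ ((G.card : ℝ) - Real.sqrt G.card / 42) ≤ A.card) :
    ∃ x, A.card ≤ 2 * (A.filter (x ∈ ·)).card := by
  by_contra hcon
  push Not at hcon
  have hG : G.erase ∅ = G := erase_eq_of_notMem h0
  have hm := card_multi_le h (fun x => (hcon x).le) (Real.sqrt G.card / 42) (by rw [hG]; exact hk)
  have hall : multi (TT A G) = G := by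
    apply Subset.antisymm
    · refine (filter_subset _ _).trans ?_
      rw [supp_TT h, hG]
    · intro g hg
      by_contra hgm
      obtain ⟨x, hx⟩ := nonempty_iff_ne_empty.2 (fun he : g = ∅ => h0 (he ▸ hg))
      exact absurd (half_of_not_multi h hg hgm hx) (not_le.2 (hcon x))
  rw [hall, div_pow, Real.sq_sqrt (Nat.cast_nonneg _)] at hm
  have : (0:ℝ) < G.card := by exact_mod_cast hJ.card_pos
  linarith

/-- Structure of the separating families in which no element is in more than half of the members. -/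
theorem structure_thm (h : Gen A G) (h0 : ∅ ∉ G)
    (hsep : ∀ x ∈ A.biUnion id, ∀ y ∈ A.biUnion id, x ≠ y → ∃ S ∈ A, (x ∈ S ∧ y ∉ S) ∨ (y ∈ S ∧ x ∉ S))
    (hh : ∀ x, 2 * (A.filter (x ∈ ·)).card ≤ A.card)
    (k : ℝ) (hk : (2:ℝ) ^ ((G.card : ℝ) - k) ≤ A.card) :
    ∃ P : Finset ι, (∀ x ∈ P, {x} ∈ G) ∧ (∀ S : Finset ι, S ∈ A ↔ S \ P ∈ A) ∧
      ((G \ P.image fun x => ({x} : Finset ι)).card : ℝ) ≤ 1762 * k ^ 2 := by
  classical
  have hG : G.erase ∅ = G := erase_eq_of_notMem h0
  have hm := card_multi_le h hh k (by rw [hG]; exact hk)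
  -- the other generators are singletons
  have hsing : ∀ g ∈ G, g ∉ multi (TT A G) → ∃ x, g = {x} := by
    intro g hg hgm
    obtain ⟨x, hx⟩ := nonempty_iff_ne_empty.2 (fun he : g = ∅ => h0 (he ▸ hg))
    refine ⟨x, Subset.antisymm (fun y hy => ?_) (singleton_subset_iff.2 hx)⟩
    rw [mem_singleton]
    by_contra hyx
    obtain ⟨S, hS, hS'⟩ := hsep y (mem_biUnion.2 ⟨g, h.sub hg, hy⟩) x (mem_biUnion.2 ⟨g, h.sub hg, hx⟩) hyx
    have h1 := tx_eq_of_not_multi h hg hgm hx hy
    rcases hS' with ⟨h2, h3⟩ | ⟨h2, h3⟩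
    · exact h3 (mem_iff_of_tx h hS h1.symm h2)
    · exact h3 (mem_iff_of_tx h hS h1 h2)
  set P : Finset ι := (A.biUnion id).filter fun x => {x} ∈ G with hP
  have hPG : ∀ x ∈ P, {x} ∈ G := fun x hx => (mem_filter.1 hx).2
  -- removing and adding a point of `P`
  have hadd : ∀ x ∈ P, ∀ X ∈ A, insert x X ∈ A := by
    intro x hx X hX
    have := h.union X hX _ (h.sub (hPG x hx))
    rwa [union_comm, ← insert_eq] at this
  have hrem : ∀ x ∈ P, ∀ X ∈ A, X.erase x ∈ A := by
    intro x hx
    have h1 := card_filter_add_card_filter_not (s := A) (x ∈ ·)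
    have h2 := hh x
    have himg : (A.filter (x ∉ ·)).image (insert x) = A.filter (x ∈ ·) := by
      apply eq_of_subset_of_card_le
      · intro Y hY
        obtain ⟨X, hX, rfl⟩ := mem_image.1 hY
        exact mem_filter.2 ⟨hadd x hx X (mem_filter.1 hX).1, mem_insert_self _ _⟩
      · rw [card_image_of_injOn]
        · omega
        · intro X hX Y hY hXY
          have hX' := (mem_filter.1 (mem_coe.1 hX)).2
          have hY' := (mem_filter.1 (mem_coe.1 hY)).2
          have hXY : insert x X = insert x Y := hXY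
          rw [← erase_insert hX', ← erase_insert hY', hXY]
    intro X hX
    by_cases hxX : x ∈ X
    · have : X ∈ A.filter (x ∈ ·) := mem_filter.2 ⟨hX, hxX⟩
      rw [← himg] at this
      obtain ⟨Y, hY, rfl⟩ := mem_image.1 this
      rw [erase_insert (mem_filter.1 hY).2]
      exact (mem_filter.1 hY).1
    · rwa [erase_eq_of_notMem hxX]
  have hremQ : ∀ Q : Finset ι, Q ⊆ P → ∀ X ∈ A, X \ Q ∈ A := by
    intro Q
    induction Q using Finset.induction_on with
    | empty => intro _ X hX; simpa using hX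
    | insert x Q hx ih =>
      intro hQ X hX
      have : X \ insert x Q = (X \ Q).erase x := by
        ext y; simp only [mem_sdiff, mem_insert, mem_erase]; tauto
      rw [this]
      exact hrem x (hQ (mem_insert_self _ _)) _ (ih ((subset_insert _ _).trans hQ) X hX)
  have haddQ : ∀ Q : Finset ι, Q ⊆ P → ∀ X ∈ A, X ∪ Q ∈ A := by
    intro Q
    induction Q using Finset.induction_on with
    | empty => intro _ X hX; simpa using hX
    | insert x Q hx ih =>
      intro hQ X hX
      have : X ∪ insert x Q = insert x (X ∪ Q) := by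
        ext y; simp only [mem_union, mem_insert]; tauto
      rw [this]
      exact hadd x (hQ (mem_insert_self _ _)) _ (ih ((subset_insert _ _).trans hQ) X hX)
  refine ⟨P, hPG, fun S => ⟨fun hS => hremQ P Subset.rfl S hS, fun hS => ?_⟩, ?_⟩
  · have := haddQ (S ∩ P) inter_subset_right _ hS
    have h3 : S \ P ∪ S ∩ P = S := by
      ext y; simp only [mem_union, mem_sdiff, mem_inter]; tauto
    rwa [h3] at this
  · refine le_trans ?_ hm
    have : G \ P.image (fun x => ({x} : Finset ι)) ⊆ multi (TT A G) := by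
      intro g hg
      obtain ⟨hgG, hgP⟩ := mem_sdiff.1 hg
      by_contra hgm
      obtain ⟨x, rfl⟩ := hsing g hgG hgm
      exact hgP (mem_image.2 ⟨x, mem_filter.2 ⟨mem_biUnion.2 ⟨_, h.sub hgG, mem_singleton_self x⟩, hgG⟩, rfl⟩)
    exact_mod_cast card_le_card this

end Pool.Agent.Q134.UC
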