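import Pool.Agent.Q134.UC.Phi

namespace Pool.Agent.Q134.UC

open Finset

variable {α : Type*} [DecidableEq α]
variable {T : Finset (Finset α)} {U V W B t : Finset α} {a b x y z : α}

/-- the points in at least two members of `T` -/
def multi (T : Finset (Finset α)) : Finset α :=
  (supp T).filter fun a => 2 ≤ (T.filter (a ∈ ·)).card

lemma real_step {n w : ℝ} (hn : 0 ≤ n) (h : 3/4 * n ≤ w * (1 + Real.sqrt (n + 1))) :
    9 * n ≤ 16 * w ^ 2 + 24 * w := by
  set s := Real.sqrt (n + 1) with hs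
  have hs2 : s ^ 2 = n + 1 := Real.sq_sqrt (by linarith)
  have hs0 : 0 ≤ s := Real.sqrt_nonneg _
  have hn' : n = (s - 1) * (s + 1) := by nlinarith
  have h1 : 3/4 * (s - 1) ≤ w := by
    have : 3/4 * (s - 1) * (s + 1) ≤ w * (s + 1) := by rw [hn'] at h; linarith
    exact le_of_mul_le_mul_right this (by linarith)
  have h2 : s ≤ 1 + 4/3 * w := by linarith
  have h3 : s ^ 2 ≤ (1 + 4/3 * w) ^ 2 := pow_le_pow_left₀ hs0 h2 2
  nlinarith

theorem main_W (hW : ∀ t ∈ T, (t \ W).card ≤ 1)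
    (H : ∀ t ∈ T, (fam T).card ≤ 2 * ((fam T).filter (t ⊆ ·)).card) :
    9 * (multi T).card ≤ 142 * W.card ^ 2 + 33 * W.card := by
  classical
  set w := W.card with hw
  set O : Finset α := (supp T).filter fun a => a ∉ W ∧ (VV T W a).Nonempty with hO
  have hOW : ∀ a ∈ O, a ∉ W := fun a ha => (mem_filter.1 ha).2.1
  -- reduction to O
  have hmulti : (multi T).card ≤ w + O.card := by
    rw [hw, ← card_union_of_disjoint (by
      rw [Finset.disjoint_left]
      intro x hx hx'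
      exact hOW x hx' hx : Disjoint W O)]
    apply card_le_card
    intro a ha
    obtain ⟨ha1, ha2⟩ := mem_filter.1 ha
    by_cases haW : a ∈ W
    · exact mem_union_left _ haW
    refine mem_union_right _ (mem_filter.2 ⟨ha1, haW, ?_⟩)
    obtain ⟨t1, h1, t2, h2, h12⟩ := Finset.one_lt_card.1 (lt_of_lt_of_le one_lt_two ha2)
    obtain ⟨ht1, hat1⟩ := mem_filter.1 h1
    obtain ⟨ht2, hat2⟩ := mem_filter.1 h2
    have key2 : ∀ s1 ∈ T, ∀ s2 ∈ T, a ∈ s1 → a ∈ s2 → ∀ x ∈ s1, x ∉ s2 → x ∈ VV T W a := by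
      intro s1 hs1 s2 hs2 ha1 ha2 x hx1 hx2
      refine mem_VV.2 ⟨?_, ⟨s1, hs1, ha1, hx1⟩, ⟨s2, hs2, ha2, hx2⟩⟩
      by_contra hxW
      exact hx2 ((eq_of hW hs1 hx1 ha1 hxW haW) ▸ ha2)
    by_contra hcon
    rw [not_nonempty_iff_eq_empty] at hcon
    apply h12
    apply Finset.Subset.antisymm
    · intro x hx
      by_contra hx'
      have := key2 t1 ht1 t2 ht2 hat1 hat2 x hx hx'
      rw [hcon] at this
      simp at this
    · intro x hx
      by_contra hx'
      have := key2 t2 ht2 t1 ht1 hat2 hat1 x hx hx'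
      rw [hcon] at this
      simp at this
  -- notation
  set ε : α → ℝ := fun a => ((Ess T W a).card : ℝ) with hε
  set δ : α → ℝ := fun z => ((MM T z).card : ℝ) with hδ
  have hδ1 : ∀ z, (1:ℝ) ≤ δ z := by
    intro z
    have : 0 < (MM T z).card := card_pos.2 ⟨∅, mem_MM.2 ⟨empty_mem, by simp⟩⟩
    simp only [hδ]
    exact_mod_cast this
  -- the key inequality
  have hkey : ∀ a ∈ O, ∀ t ∈ T, a ∈ t →
      2 * (((fam T).filter fun U => a ∈ U ∧ ¬ t ⊆ U).card : ℝ) ≤ ε a := by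
    intro a ha t ht hat
    have := key hW (hOW a ha) hat (H t ht)
    simp only [hε]
    exact_mod_cast this
  -- first exceptional set
  set X1 : Finset α := W.biUnion fun z => BB T W z with hX1
  have hX1c : (X1.card : ℝ) ≤ 6 * (w:ℝ) ^ 2 := by
    have h1 : X1.card ≤ w * (6 * w) := by
      refine card_biUnion_le.trans ?_
      refine (sum_le_sum fun z _ => card_BB (z := z) hW).trans ?_
      rw [sum_const, smul_eq_mul]
    have h2 : (X1.card : ℝ) ≤ ((w * (6 * w) : ℕ) : ℝ) := by exact_mod_cast h1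
    refine h2.trans (le_of_eq ?_)
    push_cast; ring
  have hδε : ∀ a ∈ O, a ∉ X1 → ∀ z ∈ VV T W a, δ z ≤ 2 * ε a := by
    intro a ha haX z hz
    obtain ⟨hzW, ⟨t, ht, hat, hzt⟩, ⟨t', ht', hat', hzt'⟩⟩ := mem_VV.1 hz
    have h1 : a ∉ BB T W z := fun h => haX (mem_biUnion.2 ⟨z, hzW, h⟩)
    have h2 : a ∈ OO T W z := mem_filter.2 ⟨(mem_filter.1 ha).1, hOW a ha, t', ht', hat', hzt'⟩
    have h3 : (MM T z).card ≤ 4 * ((MM T z).filter (a ∈ ·)).card := by
      by_contra hcon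
      push Not at hcon
      exact h1 (mem_filter.2 ⟨h2, hcon⟩)
    have h4 : ((MM T z).filter (a ∈ ·)).card ≤ ((fam T).filter fun U => a ∈ U ∧ ¬ t ⊆ U).card := by
      apply card_le_card
      intro U hU
      obtain ⟨hU1, hU2⟩ := mem_filter.1 hU
      obtain ⟨hU3, hU4⟩ := mem_MM.1 hU1
      exact mem_filter.2 ⟨hU3, hU2, fun h => hU4 (h hzt)⟩
    have h5 := hkey a ha t ht hat
    have h6 : δ z ≤ 4 * (((fam T).filter fun U => a ∈ U ∧ ¬ t ⊆ U).card : ℝ) := by
      simp only [hδ]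
      exact_mod_cast h3.trans (Nat.mul_le_mul_left _ h4)
    linarith
  -- second exceptional set
  set τ : α → ℝ := fun a => ∑ y ∈ VV T W a, (((Ess T W a).filter (y ∉ ·)).card : ℝ) / δ y with hτ
  have hτ0 : ∀ a, 0 ≤ τ a := fun a => sum_nonneg fun y _ =>
    div_nonneg (Nat.cast_nonneg _) (zero_le_one.trans (hδ1 y))
  have hτsum : ∑ a ∈ O, τ a ≤ (w:ℝ) ^ 2 := by
    have h1 : ∑ a ∈ O, τ a ≤ ∑ a ∈ O, ∑ y ∈ W, (((Ess T W a).filter (y ∉ ·)).card : ℝ) / δ y := by
      refine sum_le_sum fun a _ => sum_le_sum_of_subset_of_nonneg (filter_subset _ _) fun y _ _ => ?_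
      exact div_nonneg (Nat.cast_nonneg _) (zero_le_one.trans (hδ1 y))
    refine h1.trans ?_
    rw [sum_comm]
    have h2 : ∀ y ∈ W, ∑ a ∈ O, (((Ess T W a).filter (y ∉ ·)).card : ℝ) / δ y ≤ w := by
      intro y _
      rw [← sum_div, div_le_iff₀ (lt_of_lt_of_le one_pos (hδ1 y))]
      have e1 : ∀ a ∈ O, (((Ess T W a).filter (y ∉ ·)).card : ℝ)
          = ∑ U ∈ MM T y, (if U ∈ Ess T W a then (1:ℝ) else 0) := by
        intro a _
        rw [← sum_filter, sum_const, nsmul_eq_mul, mul_one]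
        congr 2
        ext U
        simp only [mem_filter, mem_MM]
        constructor
        · rintro ⟨h, h'⟩; exact ⟨⟨(mem_Ess.1 h).1, h'⟩, h⟩
        · rintro ⟨⟨_, h'⟩, h⟩; exact ⟨h, h'⟩
      rw [sum_congr rfl e1, sum_comm]
      have e2 : ∀ U ∈ MM T y, ∑ a ∈ O, (if U ∈ Ess T W a then (1:ℝ) else 0) ≤ w := by
        intro U hU
        rw [← sum_filter, sum_const, nsmul_eq_mul, mul_one]
        exact_mod_cast card_ess_le hW O hOW (mem_MM.1 hU).1
      refine (sum_le_sum e2).trans (le_of_eq ?_)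
      rw [sum_const, nsmul_eq_mul, mul_comm]
    refine (sum_le_sum h2).trans (le_of_eq ?_)
    rw [sum_const, nsmul_eq_mul]; ring
  set X2 : Finset α := O.filter fun a => 1/8 < τ a with hX2
  have hX2c : (X2.card : ℝ) ≤ 8 * (w:ℝ) ^ 2 := by
    have h1 : (X2.card : ℝ) * (1/8) ≤ ∑ a ∈ X2, τ a := by
      rw [← nsmul_eq_mul]
      exact card_nsmul_le_sum _ _ _ fun a ha => (mem_filter.1 ha).2.le
    have h2 : ∑ a ∈ X2, τ a ≤ ∑ a ∈ O, τ a :=
      sum_le_sum_of_subset_of_nonneg (filter_subset _ _) fun a _ _ => hτ0 a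
    linarith
  -- the rest
  set R : Finset α := O.filter fun a => a ∉ X1 ∧ a ∉ X2 with hR
  have hOR : (O.card : ℝ) ≤ X1.card + X2.card + R.card := by
    have : O ⊆ X1 ∪ X2 ∪ R := by
      intro a ha
      by_cases h1 : a ∈ X1
      · simp [h1]
      by_cases h2 : a ∈ X2
      · simp [h2]
      · exact mem_union_right _ (mem_filter.2 ⟨ha, h1, h2⟩)
    have h := (card_le_card this).trans ((card_union_le _ _).trans
      (Nat.add_le_add_right (card_union_le _ _) _))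
    exact_mod_cast h
  have hRO : ∀ a ∈ R, a ∈ O := fun a ha => (mem_filter.1 ha).1
  have hRδ : ∀ a ∈ R, ∀ z ∈ VV T W a, δ z ≤ 2 * ε a := fun a ha =>
    hδε a (hRO a ha) (mem_filter.1 ha).2.1
  have hRε : ∀ a ∈ R, 0 < ε a := by
    intro a ha
    obtain ⟨z, hz⟩ := (mem_filter.1 (hRO a ha)).2.2
    have := hRδ a ha z hz
    have := hδ1 z
    linarith
  have hRτ : ∀ a ∈ R, τ a ≤ 1/8 := by
    intro a ha
    by_contra hcon
    push Not at hcon
    exact (mem_filter.1 ha).2.2 (mem_filter.2 ⟨hRO a ha, hcon⟩)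
  -- most of `Ess a` lies in the sets `FF z a`
  have hRF : ∀ a ∈ R, 3/4 * ε a ≤ ∑ z ∈ VV T W a, ((FF T z a).card : ℝ) := by
    intro a ha
    have hsub : Ess T W a ⊆ (VV T W a).biUnion (fun y => (Ess T W a).filter (y ∉ ·)) ∪
        (VV T W a).biUnion (fun z => FF T z a) := by
      intro U hU
      obtain ⟨hUf, z, hz, hc⟩ := mem_Ess.1 hU
      by_cases hall : ∀ y ∈ VV T W a, y ∈ U
      · refine mem_union_right _ (mem_biUnion.2 ⟨z, hz, mem_FF.2 ⟨hUf, hc, ?_⟩⟩)
        intro x hx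
        obtain ⟨t, ht, hat, hxt⟩ := mem_star.1 hx
        have haU := cov_mem hUf hc
        by_cases hxa : x = a
        · rw [hxa]; exact haU
        have hxW : x ∈ W := by
          by_contra hxW
          exact hxa (eq_of hW ht hxt hat hxW (hOW a (hRO a ha)))
        obtain ⟨t0, ht0, hat0, ht0U⟩ := mem_fam.1 hUf a haU
        by_cases hx0 : x ∈ t0
        · exact ht0U hx0
        · exact hall x (mem_VV.2 ⟨hxW, ⟨t, ht, hat, hxt⟩, ⟨t0, ht0, hat0, hx0⟩⟩)
      · push Not at hall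
        obtain ⟨y, hy, hyU⟩ := hall
        exact mem_union_left _ (mem_biUnion.2 ⟨y, hy, mem_filter.2 ⟨hU, hyU⟩⟩)
    have h1 : (Ess T W a).card ≤ ∑ y ∈ VV T W a, ((Ess T W a).filter (y ∉ ·)).card
        + ∑ z ∈ VV T W a, (FF T z a).card :=
      (card_le_card hsub).trans ((card_union_le _ _).trans
        (Nat.add_le_add card_biUnion_le card_biUnion_le))
    have h2 : ε a ≤ ∑ y ∈ VV T W a, (((Ess T W a).filter (y ∉ ·)).card : ℝ)
        + ∑ z ∈ VV T W a, ((FF T z a).card : ℝ) := by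
      simp only [hε]
      exact_mod_cast h1
    have h3 : ∑ y ∈ VV T W a, (((Ess T W a).filter (y ∉ ·)).card : ℝ) ≤ 2 * ε a * τ a := by
      rw [hτ, mul_sum]
      refine sum_le_sum fun y hy => ?_
      have hd := hδ1 y
      have hd2 := hRδ a ha y hy
      have hd0 : 0 < δ y := lt_of_lt_of_le one_pos hd
      rw [← mul_div_assoc, le_div_iff₀ hd0, mul_comm]
      exact mul_le_mul_of_nonneg_right hd2 (Nat.cast_nonneg _)
    have h4 : 2 * ε a * τ a ≤ 2 * ε a * (1/8) :=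
      mul_le_mul_of_nonneg_left (hRτ a ha) (by have := hRε a ha; linarith)
    linarith
  -- choice of members of `T` containing `a` and not `z`
  have hch : ∀ z a : α, ∃ t : Finset α, z ∈ VV T W a → t ∈ T ∧ a ∈ t ∧ z ∉ t := by
    intro z a
    by_cases h : z ∈ VV T W a
    · obtain ⟨_, _, t, ht, h1, h2⟩ := mem_VV.1 h
      exact ⟨t, fun _ => ⟨ht, h1, h2⟩⟩
    · exact ⟨∅, fun h' => absurd h' h⟩
  choose tm htm using hch
  have hPz : ∀ z ∈ W, ∑ a ∈ R.filter (z ∈ VV T W ·), ((FF T z a).card : ℝ) / ε a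
      ≤ 1 + Real.sqrt ((R.card : ℝ) + 1) := by
    intro z _
    set Rz := R.filter (z ∈ VV T W ·) with hRz
    have hRzR : ∀ a ∈ Rz, a ∈ R ∧ z ∈ VV T W a := fun a ha => mem_filter.1 ha
    have hRz4 : ∀ a ∈ Rz, a ∉ W ∧ tm z a ∈ T ∧ a ∈ tm z a ∧ z ∉ tm z a := fun a ha =>
      ⟨hOW a (hRO a (hRzR a ha).1), htm z a (hRzR a ha).2⟩
    have hcard : ∀ a ∈ Rz, ((FF T z a).image (ph T (tm z) z a)).card = (FF T z a).card := by
      intro a ha
      apply card_image_of_injOn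
      intro U1 h1 U2 h2 h12
      have r1 := ph_rec (hRz4 a ha).2.1 (hRz4 a ha).2.2.1 (mem_coe.1 h1)
      have r2 := ph_rec (hRz4 a ha).2.1 (hRz4 a ha).2.2.1 (mem_coe.1 h2)
      rw [← r1, ← r2, h12]
    have hcs := cs (MM T z) Rz (fun a => (FF T z a).image (ph T (tm z) z a)) ε
      (fun a ha => hRε a (hRzR a ha).1)
      (fun a ha => by
        intro U hU
        obtain ⟨U0, _, rfl⟩ := mem_image.1 hU
        exact ph_mem (hRz4 a ha).2.1 (hRz4 a ha).2.2.2)
      (fun a ha => hRδ a (hRzR a ha).1 z (hRzR a ha).2)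
      (fun a' ha' => by
        obtain ⟨_, ⟨t, ht, hat, hzt⟩, _⟩ := mem_VV.1 (hRzR a' ha').2
        have h1 := offdiag hW Rz hRz4 ha' ht hat hzt
        have h2 := hkey a' (hRO a' (hRzR a' ha').1) t ht hat
        have h3 : ∑ a ∈ Rz.erase a', (((FF T z a).image (ph T (tm z) z a) ∩
            (FF T z a').image (ph T (tm z) z a')).card : ℝ) ≤
            (((fam T).filter fun U => a' ∈ U ∧ ¬ t ⊆ U).card : ℝ) := by exact_mod_cast h1
        linarith)
    rw [sum_congr rfl fun a ha => by rw [hcard a ha]] at hcs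
    set P := ∑ a ∈ Rz, ((FF T z a).card : ℝ) / ε a with hP
    have hRzc : (Rz.card : ℝ) ≤ R.card := by exact_mod_cast card_le_card (filter_subset _ _)
    have h1 : (P - 1) ^ 2 ≤ (R.card : ℝ) + 1 := by nlinarith
    have h2 : P - 1 ≤ Real.sqrt ((R.card : ℝ) + 1) := Real.le_sqrt_of_sq_le h1
    linarith
  have hRfinal : 3/4 * (R.card : ℝ) ≤ w * (1 + Real.sqrt ((R.card : ℝ) + 1)) := by
    have h1 : 3/4 * (R.card : ℝ) ≤ ∑ a ∈ R, ∑ z ∈ VV T W a, ((FF T z a).card : ℝ) / ε a := by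
      have : ∀ a ∈ R, (3/4 : ℝ) ≤ ∑ z ∈ VV T W a, ((FF T z a).card : ℝ) / ε a := by
        intro a ha
        rw [← sum_div, le_div_iff₀ (hRε a ha)]
        exact hRF a ha
      have h := card_nsmul_le_sum R _ _ this
      rw [nsmul_eq_mul] at h
      linarith
    have h2 : ∑ a ∈ R, ∑ z ∈ VV T W a, ((FF T z a).card : ℝ) / ε a
        = ∑ z ∈ W, ∑ a ∈ R.filter (z ∈ VV T W ·), ((FF T z a).card : ℝ) / ε a := by
      apply sum_comm'
      intro a z
      simp only [mem_filter]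
      constructor
      · rintro ⟨h1, h2⟩; exact ⟨⟨h1, h2⟩, (mem_VV.1 h2).1⟩
      · rintro ⟨⟨h1, h2⟩, _⟩; exact ⟨h1, h2⟩
    rw [h2] at h1
    refine h1.trans ((sum_le_sum hPz).trans (le_of_eq ?_))
    rw [sum_const, nsmul_eq_mul]
  have hRc := real_step (Nat.cast_nonneg R.card) hRfinal
  have hm : ((multi T).card : ℝ) ≤ w + O.card := by exact_mod_cast hmulti
  have : 9 * ((multi T).card : ℝ) ≤ 142 * (w:ℝ) ^ 2 + 33 * w := by linarith
  exact_mod_cast this

end Pool.Agent.Q134.UC
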