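import Pool.Agent.Q134.UC.Count

namespace Pool.Agent.Q134.UC

open Finset

variable {α : Type*} [DecidableEq α]
variable {T : Finset (Finset α)} {U V W B t : Finset α} {a b x y z : α}

lemma sum_pairs (P : Finset (Finset α)) : ∀ E : Finset α, (∀ p ∈ P, p.card = 2 ∧ p ⊆ E) →
    (∀ p ∈ P, ∀ p' ∈ P, p ≠ p' → Disjoint p p') →
    2 * P.card ≤ E.card ∧
    ∑ U ∈ E.powerset, (3:ℝ) ^ (P.filter (· ⊆ U)).card = 2 ^ (E.card - 2 * P.card) * 6 ^ P.card := by
  induction P using Finset.induction_on with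
  | empty =>
    intro E _ _
    simp
  | insert p P hp ih =>
    intro E hE hd
    obtain ⟨hp2, hpE⟩ := hE p (mem_insert_self _ _)
    obtain ⟨x, y, hxy, rfl⟩ := card_eq_two.1 hp2
    have hx : x ∈ E := hpE (by simp)
    have hy : y ∈ E := hpE (by simp)
    set E' := (E.erase x).erase y with hE'
    have hxE' : x ∉ E' := by simp [hE']
    have hyE' : y ∉ E' := by simp [hE']
    have hEE : E = insert x (insert y E') := by
      rw [hE', insert_erase (mem_erase.2 ⟨hxy.symm, hy⟩), insert_erase hx]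
    have hdP : ∀ p' ∈ P, x ∉ p' ∧ y ∉ p' := by
      intro p' hp'
      have hne : ({x, y} : Finset α) ≠ p' := fun h => hp (h ▸ hp')
      have := hd _ (mem_insert_self _ _) _ (mem_insert_of_mem hp') hne
      rw [Finset.disjoint_left] at this
      exact ⟨this (by simp), this (by simp)⟩
    obtain ⟨ih1, ih2⟩ := ih E' (by
      intro p' hp'
      refine ⟨(hE p' (mem_insert_of_mem hp')).1, fun w hw => ?_⟩
      have hwE := (hE p' (mem_insert_of_mem hp')).2 hw
      rw [hE', mem_erase, mem_erase]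
      exact ⟨fun h => (hdP p' hp').2 (h ▸ hw), fun h => (hdP p' hp').1 (h ▸ hw), hwE⟩)
      (fun p' hp' p'' hp'' => hd _ (mem_insert_of_mem hp') _ (mem_insert_of_mem hp''))
    have hcardE : E.card = E'.card + 2 := by
      rw [hEE, card_insert_of_notMem (by simp [hxy, hxE']), card_insert_of_notMem hyE']
    rw [card_insert_of_notMem hp]
    refine ⟨by omega, ?_⟩
    rw [hEE, sum_powerset_insert (by simp [hxy, hxE']), sum_powerset_insert hyE',
      sum_powerset_insert hyE', ← hEE]
    have hsub : ∀ U : Finset α, ∀ p' ∈ P, ∀ v, (v = x ∨ v = y) → (p' ⊆ insert v U ↔ p' ⊆ U) := by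
      intro U p' hp' v hv
      constructor
      · intro h w hw
        rcases mem_insert.1 (h hw) with h' | h'
        · exfalso
          rcases hv with rfl | rfl
          · exact (hdP p' hp').1 (h' ▸ hw)
          · exact (hdP p' hp').2 (h' ▸ hw)
        · exact h'
      · intro h; exact h.trans (subset_insert _ _)
    have c0 : ∀ U ∈ E'.powerset, ((insert {x, y} P).filter (· ⊆ U)).card = (P.filter (· ⊆ U)).card := by
      intro U hU
      have hU := mem_powerset.1 hU
      rw [filter_insert, if_neg]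
      intro h
      exact hxE' (hU (h (by simp)))
    have c1 : ∀ U ∈ E'.powerset, ((insert {x, y} P).filter (· ⊆ insert y U)).card
        = (P.filter (· ⊆ U)).card := by
      intro U hU
      have hU := mem_powerset.1 hU
      rw [filter_insert, if_neg]
      · congr 1
        exact filter_congr fun p' hp' => hsub U p' hp' y (Or.inr rfl)
      · intro h
        have : x ∈ insert y U := h (by simp)
        rcases mem_insert.1 this with h' | h'
        · exact hxy h'
        · exact hxE' (hU h')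
    have c2 : ∀ U ∈ E'.powerset, ((insert {x, y} P).filter (· ⊆ insert x U)).card
        = (P.filter (· ⊆ U)).card := by
      intro U hU
      have hU := mem_powerset.1 hU
      rw [filter_insert, if_neg]
      · congr 1
        exact filter_congr fun p' hp' => hsub U p' hp' x (Or.inl rfl)
      · intro h
        have : y ∈ insert x U := h (by simp)
        rcases mem_insert.1 this with h' | h'
        · exact hxy h'.symm
        · exact hyE' (hU h')
    have c3 : ∀ U ∈ E'.powerset, ((insert {x, y} P).filter (· ⊆ insert x (insert y U))).card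
        = (P.filter (· ⊆ U)).card + 1 := by
      intro U hU
      rw [filter_insert, if_pos (by
        intro w hw
        rcases mem_insert.1 hw with rfl | hw
        · simp
        · rw [mem_singleton] at hw; subst hw; simp)]
      rw [card_insert_of_notMem (fun h => hp (mem_filter.1 h).1)]
      congr 2
      refine filter_congr fun p' hp' => ?_
      rw [hsub _ p' hp' x (Or.inl rfl), hsub U p' hp' y (Or.inr rfl)]
    have s0 : ∑ U ∈ E'.powerset, (3:ℝ) ^ ((insert {x, y} P).filter (· ⊆ U)).card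
        = ∑ U ∈ E'.powerset, (3:ℝ) ^ (P.filter (· ⊆ U)).card :=
      sum_congr rfl fun U hU => by rw [c0 U hU]
    have s1 : ∑ U ∈ E'.powerset, (3:ℝ) ^ ((insert {x, y} P).filter (· ⊆ insert y U)).card
        = ∑ U ∈ E'.powerset, (3:ℝ) ^ (P.filter (· ⊆ U)).card :=
      sum_congr rfl fun U hU => by rw [c1 U hU]
    have s2 : ∑ U ∈ E'.powerset, (3:ℝ) ^ ((insert {x, y} P).filter (· ⊆ insert x U)).card
        = ∑ U ∈ E'.powerset, (3:ℝ) ^ (P.filter (· ⊆ U)).card :=
      sum_congr rfl fun U hU => by rw [c2 U hU]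
    have s3 : ∑ U ∈ E'.powerset, (3:ℝ) ^ ((insert {x, y} P).filter (· ⊆ insert x (insert y U))).card
        = (∑ U ∈ E'.powerset, (3:ℝ) ^ (P.filter (· ⊆ U)).card) * 3 := by
      rw [sum_mul]
      exact sum_congr rfl fun U hU => by rw [c3 U hU, pow_succ]
    rw [s0, s1, s2, s3, ih2]
    have : E.card - 2 * (P.card + 1) = E'.card - 2 * P.card := by omega
    rw [this]; ring

/-- If every member of `T` lies in at least half of the unions, then disjoint pairs inside members
of `T` are few when there are many unions. -/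
lemma pairs_bound (H : ∀ t ∈ T, (fam T).card ≤ 2 * ((fam T).filter (t ⊆ ·)).card)
    (P : Finset (Finset α)) (h1 : ∀ p ∈ P, p.card = 2 ∧ ∃ t ∈ T, p ⊆ t)
    (h2 : ∀ p ∈ P, ∀ p' ∈ P, p ≠ p' → Disjoint p p') :
    (fam T).card ^ 2 * 4 ^ P.card ≤ 3 ^ P.card * 4 ^ (supp T).card := by
  classical
  set q := P.card with hq
  obtain ⟨g1, g2⟩ := sum_pairs P (supp T) (fun p hp => ⟨(h1 p hp).1, by
    obtain ⟨t, ht, hs⟩ := (h1 p hp).2
    exact fun x hx => mem_supp.2 ⟨t, ht, hs hx⟩⟩) h2
  have hlog : 0 < Real.log 3 := Real.log_pos (by norm_num)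
  have hsum : (q : ℝ) / 2 * (fam T).card ≤ ∑ U ∈ fam T, ((P.filter (· ⊆ U)).card : ℝ) := by
    have e1 : ∀ U ∈ fam T, ((P.filter (· ⊆ U)).card : ℝ) = ∑ p ∈ P, (if p ⊆ U then (1:ℝ) else 0) := by
      intro U _
      rw [← Finset.sum_filter, sum_const, nsmul_eq_mul, mul_one]
    rw [sum_congr rfl e1, sum_comm]
    have : ∀ p ∈ P, ((fam T).card : ℝ) / 2 ≤ ∑ U ∈ fam T, (if p ⊆ U then (1:ℝ) else 0) := by
      intro p hp
      obtain ⟨_, t, ht, hs⟩ := h1 p hp
      rw [← Finset.sum_filter, sum_const, nsmul_eq_mul, mul_one]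
      have hc : ((fam T).filter (t ⊆ ·)).card ≤ ((fam T).filter (p ⊆ ·)).card :=
        card_le_card fun U hU => mem_filter.2 ⟨(mem_filter.1 hU).1, hs.trans (mem_filter.1 hU).2⟩
      have h3 : (fam T).card ≤ 2 * ((fam T).filter (p ⊆ ·)).card :=
        (H t ht).trans (Nat.mul_le_mul_left _ hc)
      have h4 : ((fam T).card : ℝ) ≤ 2 * ((fam T).filter (p ⊆ ·)).card := by exact_mod_cast h3
      linarith
    refine le_trans ?_ (sum_le_sum this)
    rw [sum_const, nsmul_eq_mul]; linarith
  have hexp : ((fam T).card : ℝ) ≤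
      ∑ U ∈ fam T, Real.exp ((((P.filter (· ⊆ U)).card : ℝ) - (q : ℝ) / 2) * Real.log 3) := by
    apply card_le_sum_exp
    rw [← sum_mul]
    apply mul_nonneg _ hlog.le
    rw [sum_sub_distrib, sum_const, nsmul_eq_mul]
    linarith
  have hterm : ∀ U ∈ fam T, Real.exp ((((P.filter (· ⊆ U)).card : ℝ) - (q : ℝ) / 2) * Real.log 3)
      = (Real.exp ((q : ℝ) / 2 * Real.log 3))⁻¹ * (3 : ℝ) ^ (P.filter (· ⊆ U)).card := by
    intro U _
    have e3 : Real.exp (((P.filter (· ⊆ U)).card : ℝ) * Real.log 3) = 3 ^ (P.filter (· ⊆ U)).card := by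
      rw [mul_comm, Real.exp_mul, Real.exp_log (by norm_num), Real.rpow_natCast]
    rw [sub_mul, Real.exp_sub, e3]; field_simp
  rw [sum_congr rfl hterm, ← mul_sum] at hexp
  have hle : ∑ U ∈ fam T, (3 : ℝ) ^ (P.filter (· ⊆ U)).card ≤
      2 ^ ((supp T).card - 2 * q) * (6 : ℝ) ^ q := by
    rw [← g2]
    exact sum_le_sum_of_subset_of_nonneg (filter_subset _ _) fun _ _ _ => by positivity
  have hE : 0 < Real.exp ((q : ℝ) / 2 * Real.log 3) := Real.exp_pos _
  have h3 : ((fam T).card : ℝ) * Real.exp ((q : ℝ) / 2 * Real.log 3) ≤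
      2 ^ ((supp T).card - 2 * q) * (6 : ℝ) ^ q := by
    have h := hexp.trans (mul_le_mul_of_nonneg_left hle (inv_pos.2 hE).le)
    have h' := mul_le_mul_of_nonneg_right h hE.le
    calc _ ≤ _ := h'
      _ = 2 ^ ((supp T).card - 2 * q) * (6 : ℝ) ^ q := by field_simp
  have h4 : (Real.exp ((q : ℝ) / 2 * Real.log 3)) ^ 2 = 3 ^ q := by
    rw [← Real.exp_nat_mul]
    have : ((2:ℕ):ℝ) * ((q : ℝ) / 2 * Real.log 3) = Real.log 3 * q := by push_cast; ring
    rw [this, Real.exp_mul, Real.exp_log (by norm_num), Real.rpow_natCast]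
  have h5 : (((fam T).card : ℝ) * Real.exp ((q : ℝ) / 2 * Real.log 3)) ^ 2 ≤
      (2 ^ ((supp T).card - 2 * q) * (6 : ℝ) ^ q) ^ 2 := pow_le_pow_left₀ (by positivity) h3 2
  rw [mul_pow, h4, mul_pow, ← pow_mul, ← pow_mul] at h5
  have h6 : (2:ℝ) ^ (((supp T).card - 2 * q) * 2) * 16 ^ q = 4 ^ (supp T).card := by
    have : (16:ℝ) ^ q = 2 ^ (4 * q) := by rw [pow_mul]; norm_num
    rw [this, ← pow_add, show ((supp T).card - 2 * q) * 2 + 4 * q = 2 * (supp T).card by omega, pow_mul]
    norm_num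
  have h7 : ((fam T).card : ℝ) ^ 2 * 4 ^ q ≤ 3 ^ q * 4 ^ (supp T).card := by
    have hp : (0:ℝ) < 12 ^ q := by positivity
    refine le_of_mul_le_mul_right ?_ hp
    calc ((fam T).card : ℝ) ^ 2 * 4 ^ q * 12 ^ q
        = (((fam T).card : ℝ) ^ 2 * 3 ^ q) * 16 ^ q := by
          have : (4:ℝ) ^ q * 12 ^ q = 3 ^ q * 16 ^ q := by rw [← mul_pow, ← mul_pow]; norm_num
          rw [mul_assoc, this]; ring
      _ ≤ (2 ^ (((supp T).card - 2 * q) * 2) * 6 ^ (q * 2)) * 16 ^ q :=
          mul_le_mul_of_nonneg_right h5 (by positivity)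
      _ = (2 ^ (((supp T).card - 2 * q) * 2) * 16 ^ q) * 36 ^ q := by
          rw [mul_comm q 2, pow_mul (6:ℝ)]; norm_num; ring
      _ = 3 ^ q * 4 ^ (supp T).card * 12 ^ q := by
          rw [h6]
          have : (36:ℝ) ^ q = 3 ^ q * 12 ^ q := by rw [← mul_pow]; norm_num
          rw [this]; ring
  exact_mod_cast h7

theorem exists_W (T : Finset (Finset α))
    (H : ∀ t ∈ T, (fam T).card ≤ 2 * ((fam T).filter (t ⊆ ·)).card) :
    ∃ (W : Finset α) (q : ℕ), W.card = 2 * q ∧ (∀ t ∈ T, (t \ W).card ≤ 1) ∧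
      (fam T).card ^ 2 * 4 ^ q ≤ 3 ^ q * 4 ^ (supp T).card := by
  classical
  set C : Finset (Finset (Finset α)) := ((supp T).powerset.powerset).filter fun P =>
    (∀ p ∈ P, p.card = 2 ∧ ∃ t ∈ T, p ⊆ t) ∧ (∀ p ∈ P, ∀ p' ∈ P, p ≠ p' → Disjoint p p') with hC
  have hne : C.Nonempty := ⟨∅, by simp [hC]⟩
  obtain ⟨P, hP, hmax⟩ := exists_max_image C card hne
  obtain ⟨hPs, hP1, hP2⟩ := mem_filter.1 hP
  refine ⟨P.biUnion id, P.card, ?_, ?_, pairs_bound H P hP1 hP2⟩
  · have hcb : (P.biUnion id).card = ∑ p ∈ P, (id p : Finset α).card :=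
      card_biUnion (fun p hp p' hp' h => hP2 p hp p' hp' h)
    rw [hcb, sum_congr rfl fun p hp => show (id p).card = 2 from (hP1 p hp).1, sum_const, smul_eq_mul]
    ring
  · intro t ht
    by_contra hcon
    push Not at hcon
    obtain ⟨x, hx, y, hy, hxy⟩ := Finset.one_lt_card.1 hcon
    obtain ⟨hxt, hxW⟩ := mem_sdiff.1 hx
    obtain ⟨hyt, hyW⟩ := mem_sdiff.1 hy
    have hpt : ({x, y} : Finset α) ⊆ t := by
      intro w hw
      rcases mem_insert.1 hw with rfl | hw
      · exact hxt
      · rw [mem_singleton] at hw; subst hw; exact hyt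
    have hdis : ∀ p ∈ P, Disjoint ({x, y} : Finset α) p := by
      intro p hp
      rw [Finset.disjoint_left]
      intro w hw hwp
      rcases mem_insert.1 hw with rfl | hw
      · exact hxW (mem_biUnion.2 ⟨p, hp, hwp⟩)
      · rw [mem_singleton] at hw; subst hw; exact hyW (mem_biUnion.2 ⟨p, hp, hwp⟩)
    have hnot : ({x, y} : Finset α) ∉ P := by
      intro h
      have := hdis _ h
      rw [disjoint_self_iff_empty] at this
      simp at this
    have hins : insert {x, y} P ∈ C := by
      rw [hC, mem_filter]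
      refine ⟨?_, ?_, ?_⟩
      · rw [mem_powerset]
        intro p hp
        rcases mem_insert.1 hp with rfl | hp
        · rw [mem_powerset]; exact fun w hw => mem_supp.2 ⟨t, ht, hpt hw⟩
        · exact mem_powerset.1 hPs hp
      · intro p hp
        rcases mem_insert.1 hp with rfl | hp
        · exact ⟨card_pair hxy, t, ht, hpt⟩
        · exact hP1 p hp
      · intro p hp p' hp' hne
        rcases mem_insert.1 hp with rfl | hp
        · rcases mem_insert.1 hp' with rfl | hp'
          · exact absurd rfl hne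
          · exact hdis p' hp'
        · rcases mem_insert.1 hp' with rfl | hp'
          · exact (hdis p hp).symm
          · exact hP2 p hp p' hp' hne
    have := hmax _ hins
    rw [card_insert_of_notMem hnot] at this
    omega

end Pool.Agent.Q134.UC
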