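import Pool.Agent.Q134.UC.Pairs

namespace Pool.Agent.Q134.UC

open Finset

variable {α : Type*} [DecidableEq α]
variable {T : Finset (Finset α)} {U V W B t : Finset α} {a b x y z : α}

lemma cs {ι κ : Type*} [DecidableEq ι] [DecidableEq κ] (M : Finset κ) (R : Finset ι)
    (Φ : ι → Finset κ) (ε : ι → ℝ) (hε : ∀ a ∈ R, 0 < ε a) (hΦ : ∀ a ∈ R, Φ a ⊆ M)
    (hδ : ∀ a ∈ R, (M.card : ℝ) ≤ 2 * ε a)
    (hoff : ∀ a' ∈ R, 2 * ∑ a ∈ R.erase a', ((Φ a ∩ Φ a').card : ℝ) ≤ ε a') :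
    (∑ a ∈ R, ((Φ a).card : ℝ) / ε a) ^ 2 ≤ 2 * ∑ a ∈ R, ((Φ a).card : ℝ) / ε a + R.card := by
  classical
  set g : κ → ℝ := fun u => ∑ a ∈ R, if u ∈ Φ a then (ε a)⁻¹ else 0 with hg
  have hsum : ∑ u ∈ M, g u = ∑ a ∈ R, ((Φ a).card : ℝ) / ε a := by
    rw [hg, sum_comm]
    refine sum_congr rfl fun a ha => ?_
    rw [← sum_filter, sum_const, nsmul_eq_mul, div_eq_mul_inv]
    congr 3
    ext u
    simp only [mem_filter]
    exact ⟨fun h => h.2, fun h => ⟨hΦ a ha h, h⟩⟩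
  have hcs : (∑ u ∈ M, g u) ^ 2 ≤ M.card * ∑ u ∈ M, g u ^ 2 := sq_sum_le_card_mul_sum_sq
  have hsq : ∑ u ∈ M, g u ^ 2 = ∑ a' ∈ R, ∑ a ∈ R, ((Φ a ∩ Φ a').card : ℝ) * ((ε a)⁻¹ * (ε a')⁻¹) := by
    have e1 : ∀ u ∈ M, g u ^ 2 = ∑ a' ∈ R, ∑ a ∈ R,
        (if u ∈ Φ a ∩ Φ a' then (ε a)⁻¹ * (ε a')⁻¹ else 0) := by
      intro u _
      rw [sq, hg]
      simp only
      rw [sum_mul_sum, sum_comm]
      refine sum_congr rfl fun a' _ => sum_congr rfl fun a _ => ?_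
      by_cases h1 : u ∈ Φ a <;> by_cases h2 : u ∈ Φ a' <;> simp [h1, h2]
    rw [sum_congr rfl e1, sum_comm]
    refine sum_congr rfl fun a' ha' => ?_
    rw [sum_comm]
    refine sum_congr rfl fun a ha => ?_
    rw [← sum_filter, sum_const, nsmul_eq_mul]
    congr 3
    ext u
    simp only [mem_filter, mem_inter]
    exact ⟨fun h => h.2, fun h => ⟨hΦ a ha h.1, h⟩⟩
  -- split off the diagonal
  have hsplit : ∑ a' ∈ R, ∑ a ∈ R, ((Φ a ∩ Φ a').card : ℝ) * ((ε a)⁻¹ * (ε a')⁻¹)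
      = ∑ a' ∈ R, ((Φ a').card : ℝ) * ((ε a')⁻¹ * (ε a')⁻¹)
        + ∑ a' ∈ R, ∑ a ∈ R.erase a', ((Φ a ∩ Φ a').card : ℝ) * ((ε a)⁻¹ * (ε a')⁻¹) := by
    rw [← sum_add_distrib]
    refine sum_congr rfl fun a' ha' => ?_
    rw [← add_sum_erase R _ ha', inter_self]
  have hswap : ∑ a' ∈ R, ∑ a ∈ R.erase a', ((Φ a ∩ Φ a').card : ℝ) * ((ε a)⁻¹ * (ε a)⁻¹)
      = ∑ a' ∈ R, ∑ a ∈ R.erase a', ((Φ a ∩ Φ a').card : ℝ) * ((ε a')⁻¹ * (ε a')⁻¹) := by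
    have e1 : ∀ (F : ι → ι → ℝ), ∑ a' ∈ R, ∑ a ∈ R.erase a', F a a'
        = ∑ a' ∈ R, ∑ a ∈ R, (if a ≠ a' then F a a' else 0) := by
      intro F
      refine sum_congr rfl fun a' _ => ?_
      rw [← sum_filter]
      refine sum_congr ?_ fun _ _ => rfl
      ext u; simp [and_comm]
    rw [e1 (fun a a' => ((Φ a ∩ Φ a').card : ℝ) * ((ε a)⁻¹ * (ε a)⁻¹)),
      e1 (fun a a' => ((Φ a ∩ Φ a').card : ℝ) * ((ε a')⁻¹ * (ε a')⁻¹)), sum_comm]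
    refine sum_congr rfl fun a' _ => sum_congr rfl fun a _ => ?_
    by_cases h : a = a'
    · simp [h]
    · rw [if_pos h, if_pos (Ne.symm h), inter_comm]
  have hoff2 : ∑ a' ∈ R, ∑ a ∈ R.erase a', ((Φ a ∩ Φ a').card : ℝ) * ((ε a)⁻¹ * (ε a')⁻¹)
      ≤ ∑ a' ∈ R, ∑ a ∈ R.erase a', ((Φ a ∩ Φ a').card : ℝ) * ((ε a')⁻¹ * (ε a')⁻¹) := by
    have e2 : ∑ a' ∈ R, ∑ a ∈ R.erase a', ((Φ a ∩ Φ a').card : ℝ) * ((ε a)⁻¹ * (ε a')⁻¹)
        ≤ ∑ a' ∈ R, ∑ a ∈ R.erase a', (1/2 * (((Φ a ∩ Φ a').card : ℝ) * ((ε a)⁻¹ * (ε a)⁻¹))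
          + 1/2 * (((Φ a ∩ Φ a').card : ℝ) * ((ε a')⁻¹ * (ε a')⁻¹))) := by
      refine sum_le_sum fun a' _ => sum_le_sum fun a _ => ?_
      have h0 : (0:ℝ) ≤ ((Φ a ∩ Φ a').card : ℝ) := Nat.cast_nonneg _
      nlinarith [mul_nonneg h0 (sq_nonneg ((ε a)⁻¹ - (ε a')⁻¹))]
    refine e2.trans (le_of_eq ?_)
    simp only [sum_add_distrib, ← mul_sum]
    rw [hswap]; ring
  have hoff3 : ∑ a' ∈ R, ∑ a ∈ R.erase a', ((Φ a ∩ Φ a').card : ℝ) * ((ε a')⁻¹ * (ε a')⁻¹)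
      ≤ ∑ a' ∈ R, (ε a')⁻¹ / 2 := by
    refine sum_le_sum fun a' ha' => ?_
    rw [← sum_mul]
    have hp := hε a' ha'
    have h1 : ∑ a ∈ R.erase a', ((Φ a ∩ Φ a').card : ℝ) ≤ ε a' / 2 := by
      have := hoff a' ha'; linarith
    calc (∑ a ∈ R.erase a', ((Φ a ∩ Φ a').card : ℝ)) * ((ε a')⁻¹ * (ε a')⁻¹)
        ≤ (ε a' / 2) * ((ε a')⁻¹ * (ε a')⁻¹) := mul_le_mul_of_nonneg_right h1 (by positivity)
      _ = (ε a')⁻¹ / 2 := by field_simp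
  rw [← hsum]
  have hM0 : (0:ℝ) ≤ M.card := Nat.cast_nonneg _
  calc (∑ u ∈ M, g u) ^ 2 ≤ M.card * ∑ u ∈ M, g u ^ 2 := hcs
    _ ≤ M.card * (∑ a' ∈ R, ((Φ a').card : ℝ) * ((ε a')⁻¹ * (ε a')⁻¹) + ∑ a' ∈ R, (ε a')⁻¹ / 2) := by
        refine mul_le_mul_of_nonneg_left ?_ hM0
        rw [hsq, hsplit]
        linarith
    _ = ∑ a' ∈ R, (M.card * (ε a')⁻¹) * (((Φ a').card : ℝ) / ε a')
          + ∑ a' ∈ R, (M.card * (ε a')⁻¹) / 2 := by
        rw [mul_add, mul_sum, mul_sum]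
        congr 1
        · exact sum_congr rfl fun a' _ => by rw [div_eq_mul_inv]; ring
        · exact sum_congr rfl fun a' _ => by ring
    _ ≤ ∑ a' ∈ R, 2 * (((Φ a').card : ℝ) / ε a') + ∑ a' ∈ R, (2:ℝ) / 2 := by
        have h2 : ∀ a' ∈ R, (M.card : ℝ) * (ε a')⁻¹ ≤ 2 := by
          intro a' ha'
          have hp := hε a' ha'
          rw [← div_eq_mul_inv, div_le_iff₀ hp]
          exact hδ a' ha'
        refine add_le_add (sum_le_sum fun a' ha' => ?_) (sum_le_sum fun a' ha' => ?_)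
        · exact mul_le_mul_of_nonneg_right (h2 a' ha') (div_nonneg (Nat.cast_nonneg _) (hε a' ha').le)
        · have := h2 a' ha'; linarith
    _ = 2 * (∑ u ∈ M, g u) + R.card := by
        rw [hsum, ← mul_sum, sum_const, nsmul_eq_mul]; norm_num

def FF (T : Finset (Finset α)) (z a : α) : Finset (Finset α) :=
  (fam T).filter fun U => Cov T a z U ∧ star T a ⊆ U

lemma mem_FF : U ∈ FF T z a ↔ U ∈ fam T ∧ Cov T a z U ∧ star T a ⊆ U := by simp [FF]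

def ph (T : Finset (Finset α)) (tm : α → Finset α) (z a : α) (U : Finset α) : Finset α :=
  inn T (U.erase z) ∪ tm a

lemma ph_rec {tm : α → Finset α} (ht : tm a ∈ T) (ha : a ∈ tm a) (hU : U ∈ FF T z a) :
    ph T tm z a U ∪ star T a = U := by
  obtain ⟨hf, hc, hs⟩ := mem_FF.1 hU
  apply Finset.Subset.antisymm
  · apply union_subset _ hs
    apply union_subset
    · exact inn_subset.trans (erase_subset _ _)
    · exact fun x hx => hs (mem_star.2 ⟨tm a, ht, ha, hx⟩)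
  · intro x hx
    by_cases hxi : x ∈ inn T (U.erase z)
    · exact mem_union_left _ (mem_union_left _ hxi)
    refine mem_union_right _ ?_
    obtain ⟨t, ht, hxt, htU⟩ := mem_fam.1 hf x hx
    have hzt : z ∈ t := by
      by_contra hzt
      exact hxi (mem_inn.2 ⟨t, ht, fun y hy => mem_erase.2 ⟨fun h => hzt (h ▸ hy), htU hy⟩, hxt⟩)
    exact mem_star.2 ⟨t, ht, hc.2 t ht hzt htU, hxt⟩

lemma ph_mem {tm : α → Finset α} (ht : tm a ∈ T) (hz : z ∉ tm a) :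
    ph T tm z a U ∈ MM T z := by
  refine mem_MM.2 ⟨union_mem inn_mem (mem_mem ht), ?_⟩
  intro h
  rcases mem_union.1 h with h | h
  · exact (mem_erase.1 (inn_subset h)).1 rfl
  · exact hz h

lemma offdiag (hW : ∀ t ∈ T, (t \ W).card ≤ 1) {tm : α → Finset α} (R : Finset α)
    (hR : ∀ a ∈ R, a ∉ W ∧ tm a ∈ T ∧ a ∈ tm a ∧ z ∉ tm a) {a' : α} (ha' : a' ∈ R)
    (ht : t ∈ T) (ha't : a' ∈ t) (hzt : z ∈ t) :
    ∑ a ∈ R.erase a', ((FF T z a).image (ph T tm z a) ∩ (FF T z a').image (ph T tm z a')).card ≤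
      ((fam T).filter fun U => a' ∈ U ∧ ¬ t ⊆ U).card := by
  classical
  set G : α → Finset (Finset α) := fun a =>
    ((FF T z a).image (ph T tm z a) ∩ (FF T z a').image (ph T tm z a')).image (· ∪ star T a) with hG
  have hGF : ∀ a ∈ R, G a ⊆ FF T z a := by
    intro a ha U hU
    obtain ⟨U', hU', rfl⟩ := mem_image.1 hU
    obtain ⟨U0, hU0, rfl⟩ := mem_image.1 (mem_inter.1 hU').1
    have := ph_rec (hR a ha).2.1 (hR a ha).2.2.1 hU0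
    rw [this]; exact hU0
  have hGcard : ∀ a ∈ R.erase a', (G a).card =
      ((FF T z a).image (ph T tm z a) ∩ (FF T z a').image (ph T tm z a')).card := by
    intro a ha
    have haR := (mem_erase.1 ha).2
    apply card_image_of_injOn
    intro U1 h1 U2 h2 h12
    obtain ⟨V1, hV1, rfl⟩ := mem_image.1 (mem_inter.1 (mem_coe.1 h1)).1
    obtain ⟨V2, hV2, rfl⟩ := mem_image.1 (mem_inter.1 (mem_coe.1 h2)).1
    have r1 := ph_rec (hR a haR).2.1 (hR a haR).2.2.1 hV1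
    have r2 := ph_rec (hR a haR).2.1 (hR a haR).2.2.1 hV2
    have h12 : ph T tm z a V1 ∪ star T a = ph T tm z a V2 ∪ star T a := h12
    rw [r1, r2] at h12
    rw [h12]
  rw [← sum_congr rfl hGcard, ← card_biUnion]
  · apply card_le_card
    intro U hU
    obtain ⟨a, ha, hUa⟩ := mem_biUnion.1 hU
    obtain ⟨hne, haR⟩ := mem_erase.1 ha
    have hUF := mem_FF.1 (hGF a haR hUa)
    refine mem_filter.2 ⟨hUF.1, ?_, ?_⟩
    · obtain ⟨U', hU', rfl⟩ := mem_image.1 hUa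
      obtain ⟨U0, hU0, h0⟩ := mem_image.1 (mem_inter.1 hU').2
      refine mem_union_left _ ?_
      rw [← h0]
      exact mem_union_right _ (hR a' ha').2.2.1
    · intro hcon
      have := hUF.2.1.2 t ht hzt hcon
      exact hne (eq_of hW ht this ha't (hR a haR).1 (hR a' ha').1)
  · intro a ha b hb hab
    rw [Function.onFun, Finset.disjoint_left]
    intro U hUa hUb
    have h1 := mem_FF.1 (hGF a (mem_erase.1 (mem_coe.1 ha)).2 hUa)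
    have h2 := mem_FF.1 (hGF b (mem_erase.1 (mem_coe.1 hb)).2 hUb)
    exact hab (cov_unique hW h1.1 h1.2.1 h2.2.1 (hR a (mem_erase.1 (mem_coe.1 ha)).2).1
      (hR b (mem_erase.1 (mem_coe.1 hb)).2).1)

end Pool.Agent.Q134.UC
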