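import Pool.Agent.Q134.UC.Main

/-!
Translation between a union-closed family `A` generated by `G` and the family of all unions of the
sets `T_x = {g ∈ G : x ∈ g}`.
-/

namespace Pool.Agent.Q134.UC

open Finset

variable {ι : Type*} [DecidableEq ι]

/-- the generators containing `x` -/
def tx (G : Finset (Finset ι)) (x : ι) : Finset (Finset ι) := G.filter (x ∈ ·)

def TT (A G : Finset (Finset ι)) : Finset (Finset (Finset ι)) := (A.biUnion id).image (tx G)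

/-- `G` generates the union-closed family `A` -/
structure Gen (A G : Finset (Finset ι)) : Prop where
  sub : G ⊆ A
  union : ∀ X ∈ A, ∀ Y ∈ A, X ∪ Y ∈ A
  gen : ∀ X ∈ A, ∀ i ∈ X, ∃ g ∈ G, i ∈ g ∧ g ⊆ X

variable {A G : Finset (Finset ι)}

lemma mem_tx {x : ι} {g : Finset ι} : g ∈ tx G x ↔ g ∈ G ∧ x ∈ g := by simp [tx]

lemma gen_insert (h : Gen A G) : ∀ X ∈ insert ∅ A, ∀ i ∈ X, ∃ g ∈ G, i ∈ g ∧ g ⊆ X := by
  intro X hX i hi
  rcases mem_insert.1 hX with rfl | hX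
  · simp at hi
  · exact h.gen X hX i hi

lemma sup_mem_insert (h : Gen A G) (S : Finset (Finset ι)) (hS : S ⊆ G) :
    S.biUnion id ∈ insert ∅ A := by
  induction S using Finset.induction_on with
  | empty => simp
  | insert g S hg ih =>
    rw [biUnion_insert]
    have hgA : g ∈ A := h.sub (hS (mem_insert_self _ _))
    rcases mem_insert.1 (ih ((subset_insert _ _).trans hS)) with h0 | h0
    · rw [h0, union_empty]; exact mem_insert_of_mem hgA
    · exact mem_insert_of_mem (h.union _ hgA _ h0)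

def psi (G : Finset (Finset ι)) (X : Finset ι) : Finset (Finset ι) := G.filter (¬ · ⊆ X)

lemma mem_psi {X g : Finset ι} : g ∈ psi G X ↔ g ∈ G ∧ ¬ g ⊆ X := by simp [psi]

lemma psi_mem (h : Gen A G) (X : Finset ι) : psi G X ∈ fam (TT A G) := by
  rw [mem_fam]
  intro g hg
  obtain ⟨hgG, hgX⟩ := mem_psi.1 hg
  obtain ⟨x, hxg, hxX⟩ := not_subset.1 hgX
  refine ⟨tx G x, mem_image.2 ⟨x, mem_biUnion.2 ⟨g, h.sub hgG, hxg⟩, rfl⟩, mem_tx.2 ⟨hgG, hxg⟩, ?_⟩
  intro k hk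
  obtain ⟨hkG, hxk⟩ := mem_tx.1 hk
  exact mem_psi.2 ⟨hkG, fun hs => hxX (hs hxk)⟩

lemma psi_inj (h : Gen A G) : Set.InjOn (psi G) (insert ∅ A : Finset (Finset ι)) := by
  have hrec : ∀ X ∈ insert ∅ A, ∀ Y ∈ insert ∅ A, psi G X = psi G Y → X ⊆ Y := by
    intro X hX Y _ hXY x hx
    obtain ⟨g, hg, hxg, hgX⟩ := gen_insert h X hX x hx
    by_contra hxY
    have : g ∈ psi G Y := mem_psi.2 ⟨hg, fun hs => hxY (hs hxg)⟩
    rw [← hXY] at this
    exact (mem_psi.1 this).2 hgX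
  intro X hX Y hY hXY
  exact Subset.antisymm (hrec X hX Y hY hXY) (hrec Y hY X hX hXY.symm)

lemma image_psi (h : Gen A G) : (insert ∅ A).image (psi G) = fam (TT A G) := by
  apply Subset.antisymm
  · intro U hU
    obtain ⟨X, _, rfl⟩ := mem_image.1 hU
    exact psi_mem h X
  · intro U hU
    refine mem_image.2 ⟨(G \ U).biUnion id, sup_mem_insert h _ sdiff_subset, ?_⟩
    have hUG : ∀ g ∈ U, ∃ x, g ∈ G ∧ x ∈ g ∧ tx G x ⊆ U := by
      intro g hg
      obtain ⟨t, ht, hgt, htU⟩ := mem_fam.1 hU g hg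
      obtain ⟨x, _, rfl⟩ := mem_image.1 ht
      exact ⟨x, (mem_tx.1 hgt).1, (mem_tx.1 hgt).2, htU⟩
    ext g
    rw [mem_psi]
    constructor
    · rintro ⟨hgG, hg⟩
      by_contra hgU
      exact hg (subset_biUnion_of_mem id (mem_sdiff.2 ⟨hgG, hgU⟩))
    · intro hg
      obtain ⟨x, hgG, hxg, hs⟩ := hUG g hg
      refine ⟨hgG, fun hcon => ?_⟩
      obtain ⟨k, hk, hxk⟩ := mem_biUnion.1 (hcon hxg)
      exact (mem_sdiff.1 hk).2 (hs (mem_tx.2 ⟨(mem_sdiff.1 hk).1, hxk⟩))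

lemma card_fam (h : Gen A G) : (fam (TT A G)).card = (insert ∅ A).card := by
  rw [← image_psi h, card_image_of_injOn (psi_inj h)]

lemma tx_sub_psi (h : Gen A G) {X : Finset ι} (hX : X ∈ insert ∅ A) {x : ι} :
    tx G x ⊆ psi G X ↔ x ∉ X := by
  constructor
  · intro hs hx
    obtain ⟨g, hg, hxg, hgX⟩ := gen_insert h X hX x hx
    exact (mem_psi.1 (hs (mem_tx.2 ⟨hg, hxg⟩))).2 hgX
  · intro hx g hg
    obtain ⟨hgG, hxg⟩ := mem_tx.1 hg
    exact mem_psi.2 ⟨hgG, fun hs => hx (hs hxg)⟩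

lemma card_up (h : Gen A G) (x : ι) :
    ((fam (TT A G)).filter (tx G x ⊆ ·)).card = ((insert ∅ A).filter (x ∉ ·)).card := by
  rw [← image_psi h, filter_image, card_image_of_injOn]
  · congr 1
    exact filter_congr fun X hX => tx_sub_psi h hX
  · exact (psi_inj h).mono (by
      intro X hX
      exact mem_coe.2 (mem_filter.1 (mem_coe.1 hX)).1)

lemma supp_TT (h : Gen A G) : supp (TT A G) = G.erase ∅ := by
  ext g
  rw [mem_supp, mem_erase]
  constructor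
  · rintro ⟨t, ht, hg⟩
    obtain ⟨x, _, rfl⟩ := mem_image.1 ht
    obtain ⟨h1, h2⟩ := mem_tx.1 hg
    exact ⟨ne_empty_of_mem h2, h1⟩
  · rintro ⟨h1, h2⟩
    obtain ⟨x, hx⟩ := nonempty_iff_ne_empty.2 h1
    exact ⟨tx G x, mem_image.2 ⟨x, mem_biUnion.2 ⟨g, h.sub h2, hx⟩, rfl⟩, mem_tx.2 ⟨h2, hx⟩⟩

/-- no element in more than half of the members of `A` -/
lemma hyp_of_half (h : Gen A G) (hh : ∀ x, 2 * (A.filter (x ∈ ·)).card ≤ A.card) :
    ∀ t ∈ TT A G, (fam (TT A G)).card ≤ 2 * ((fam (TT A G)).filter (t ⊆ ·)).card := by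
  intro t ht
  obtain ⟨x, _, rfl⟩ := mem_image.1 ht
  rw [card_fam h, card_up h]
  have h1 := card_filter_add_card_filter_not (s := insert ∅ A) (x ∈ ·)
  have h2 : (insert ∅ A).filter (x ∈ ·) = A.filter (x ∈ ·) := by
    rw [filter_insert, if_neg (notMem_empty x)]
  rw [h2] at h1
  have h3 := hh x
  have h4 : A.card ≤ (insert ∅ A).card := card_le_card (subset_insert _ _)
  omega

/-- the number of generators in at least two of the sets `T_x` is at most quadratic in the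
logarithm of the inverse density. -/
theorem card_multi_le (h : Gen A G) (hh : ∀ x, 2 * (A.filter (x ∈ ·)).card ≤ A.card)
    (k : ℝ) (hk : (2:ℝ) ^ (((G.erase ∅).card : ℝ) - k) ≤ A.card) :
    ((multi (TT A G)).card : ℝ) ≤ 1762 * k ^ 2 := by
  obtain ⟨W, q, hWq, hW, hq⟩ := exists_W (TT A G) (hyp_of_half h hh)
  have hmain := main_W hW (hyp_of_half h hh)
  rw [hWq] at hmain
  rw [supp_TT h, card_fam h] at hq
  set J := (G.erase ∅).card with hJ
  set N := (insert ∅ A).card with hN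
  have hNA : (A.card : ℝ) ≤ N := by
    exact_mod_cast card_le_card (subset_insert _ _)
  have hN1 : (2:ℝ) ^ ((J : ℝ) - k) ≤ N := hk.trans hNA
  have hq' : (N:ℝ) ^ 2 * 4 ^ q ≤ 3 ^ q * 4 ^ J := by exact_mod_cast hq
  have h1 : ((4:ℝ)/3) ^ q ≤ 4 ^ (k : ℝ) := by
    have h2 : ((2:ℝ) ^ ((J : ℝ) - k)) ^ 2 = 4 ^ J / 4 ^ (k:ℝ) := by
      rw [← Real.rpow_natCast, ← Real.rpow_mul (by norm_num), mul_comm, Real.rpow_mul (by norm_num)]
      norm_num
      rw [Real.rpow_sub (by norm_num), Real.rpow_natCast]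
    have h3 : (4:ℝ) ^ J / 4 ^ (k:ℝ) * 4 ^ q ≤ 3 ^ q * 4 ^ J := by
      rw [← h2]
      refine le_trans ?_ hq'
      exact mul_le_mul_of_nonneg_right (pow_le_pow_left₀ (by positivity) hN1 2) (by positivity)
    have h4 : (0:ℝ) < 4 ^ (k:ℝ) := by positivity
    have h5 : (0:ℝ) < 4 ^ J := by positivity
    rw [div_pow, div_le_iff₀ (by positivity)]
    rw [div_mul_eq_mul_div, div_le_iff₀ h4] at h3
    have h6 : (4:ℝ) ^ J * 4 ^ q ≤ 4 ^ J * (4 ^ (k:ℝ) * 3 ^ q) := by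
      calc _ ≤ _ := h3
        _ = _ := by ring
    exact le_of_mul_le_mul_left h6 h5
  have h7 : (q:ℝ) ≤ 5 * k := by
    have h8 : (4:ℝ) ^ (q:ℝ) ≤ 4 ^ (5 * k) := by
      calc (4:ℝ) ^ (q:ℝ) = 4 ^ q := Real.rpow_natCast _ _
        _ ≤ (((4:ℝ)/3) ^ 5) ^ q := pow_le_pow_left₀ (by norm_num) (by norm_num) q
        _ = (((4:ℝ)/3) ^ q) ^ 5 := by rw [← pow_mul, ← pow_mul, mul_comm]
        _ ≤ ((4:ℝ) ^ (k:ℝ)) ^ 5 := pow_le_pow_left₀ (by positivity) h1 5
        _ = 4 ^ (5 * k) := by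
          rw [← Real.rpow_natCast, ← Real.rpow_mul (by norm_num)]
          norm_num [mul_comm]
    exact (Real.rpow_le_rpow_left_iff (by norm_num)).1 h8
  have hmain' : 9 * ((multi (TT A G)).card : ℝ) ≤ 142 * (2 * (q:ℝ)) ^ 2 + 33 * (2 * (q:ℝ)) := by
    exact_mod_cast hmain
  rcases Nat.eq_zero_or_pos q with h0 | h0
  · rw [h0] at hmain'
    have : (0:ℝ) ≤ 1762 * k ^ 2 := by positivity
    norm_num at hmain'
    linarith
  · have h9 : (1:ℝ) ≤ q := by exact_mod_cast h0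
    have h10 : (q:ℝ) ≤ q ^ 2 := by nlinarith
    have h11 : (q:ℝ) ^ 2 ≤ (5 * k) ^ 2 := pow_le_pow_left₀ (by positivity) h7 2
    nlinarith

end Pool.Agent.Q134.UC
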